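import Pool.Agent.TH612.GS.Stm

set_option autoImplicit false

/-!
Project GS, part FL2: mean squares of finite sums of characters.
-/

namespace Pool.Agent.TH448.GS

open Complex Filter Topology MeasureTheory Set
open Pool.Agent.TH612.GS

noncomputable section

/-- signs -/
def eps {k : ℕ} : Fin k ⊕ Fin k → ℝ := Sum.elim (fun _ => -1) (fun _ => 1)

/-- frequencies -/
def th {k : ℕ} (ν : Fin k ⊕ Fin k → ℕ) (i : Fin k ⊕ Fin k) : ℝ := eps i * Real.log (ν i)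

/-- the one-variable integral -/
def EE (T θ : ℝ) : ℂ := ∫ u in Icc 0 T, Complex.exp (I * ((θ * u : ℝ) : ℂ))

theorem norm_exp_I (x : ℝ) : ‖Complex.exp (I * (x : ℂ))‖ = 1 := by
  rw [mul_comm]; exact Complex.norm_exp_ofReal_mul_I x

theorem EE_zero {T : ℝ} (hT : 0 < T) : EE T 0 = T := by
  unfold EE
  simp [hT.le]

theorem EE_le {T : ℝ} (hT : 0 < T) (θ : ℝ) : ‖EE T θ‖ ≤ T := by
  unfold EE
  have h := norm_integral_le_of_norm_le_const (μ := volume.restrict (Icc 0 T))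
    (f := fun u : ℝ => Complex.exp (I * ((θ * u : ℝ) : ℂ))) (C := 1)
    (ae_of_all _ fun u => (norm_exp_I _).le)
  have h2 : (volume.restrict (Icc 0 T)).real univ = T := by
    simp [Measure.real, hT.le]
  rw [h2, one_mul] at h
  exact h

theorem EE_le' {T θ : ℝ} (hT : 0 < T) (hθ : θ ≠ 0) : ‖EE T θ‖ ≤ 2 / |θ| := by
  unfold EE
  rw [integral_Icc_eq_integral_Ioc, ← intervalIntegral.integral_of_le hT.le]
  have hc : (I * (θ : ℂ)) ≠ 0 := mul_ne_zero I_ne_zero (by exact_mod_cast hθ)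
  have h1 : ∀ u : ℝ, Complex.exp (I * ((θ * u : ℝ) : ℂ)) = Complex.exp ((I * (θ : ℂ)) * u) := by
    intro u; congr 1; push_cast; ring
  simp only [h1]
  rw [integral_exp_mul_complex hc, norm_div, norm_mul, Complex.norm_I, one_mul,
    Complex.norm_real, Real.norm_eq_abs]
  apply div_le_div_of_nonneg_right _ (abs_nonneg _)
  rw [← h1, ← h1]
  calc _ ≤ ‖Complex.exp (I * ((θ * T : ℝ) : ℂ))‖ + ‖Complex.exp (I * ((θ * 0 : ℝ) : ℂ))‖ :=
        norm_sub_le _ _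
    _ = 2 := by rw [norm_exp_I, norm_exp_I]; norm_num

theorem log_gap {N n m : ℕ} (hn : 1 ≤ n) (hm : 1 ≤ m) (hnN : n ≤ N) (hmN : m ≤ N) (h : n ≠ m) :
    1 / (N : ℝ) ≤ |Real.log n - Real.log m| := by
  wlog hlt : m < n generalizing n m with H
  · rw [abs_sub_comm]
    exact H hm hn hmN hnN h.symm (lt_of_le_of_ne (not_lt.1 hlt) h)
  have hn0 : (0 : ℝ) < n := by exact_mod_cast (by omega : 0 < n)
  have hm0 : (0 : ℝ) < m := by exact_mod_cast (by omega : 0 < m)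
  have hN0 : (0 : ℝ) < N := by exact_mod_cast (by omega : 0 < N)
  rw [← Real.log_div hn0.ne' hm0.ne']
  have h1 := Real.one_sub_inv_le_log_of_pos (div_pos hn0 hm0)
  rw [inv_div] at h1
  have h2 : (m : ℝ) + 1 ≤ n := by exact_mod_cast hlt
  have h3 : (n : ℝ) ≤ N := by exact_mod_cast hnN
  have h4 : 1 / (N : ℝ) ≤ 1 - m / n := by
    have h5 : 1 / (N : ℝ) ≤ 1 / n := one_div_le_one_div_of_le hn0 h3
    have h6 : 1 / (n : ℝ) ≤ 1 - m / n := by
      rw [div_le_iff₀ hn0]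
      field_simp
      linarith
    linarith
  exact (h4.trans h1).trans (le_abs_self _)

theorem th_gap {k N : ℕ} {ν ν' : Fin k ⊕ Fin k → ℕ} (hν : ν ∈ tup k N) (hν' : ν' ∈ tup k N)
    {i : Fin k ⊕ Fin k} (h : ν i ≠ ν' i) : 1 / (N : ℝ) ≤ |th ν i - th ν' i| := by
  unfold tup at hν hν'
  have h1 := Finset.mem_Icc.1 (Fintype.mem_piFinset.1 hν i)
  have h2 := Finset.mem_Icc.1 (Fintype.mem_piFinset.1 hν' i)
  have h3 := log_gap h1.1 h2.1 h1.2 h2.2 h
  have h4 : |th ν i - th ν' i| = |Real.log (ν i) - Real.log (ν' i)| := by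
    unfold th
    rw [← mul_sub, abs_mul]
    have : |(eps i : ℝ)| = 1 := by
      rcases i with i | i <;> simp [eps]
    rw [this, one_mul]
  rw [h4]
  exact h3

theorem EE_off {k N : ℕ} {T : ℝ} (hT : 0 < T) (hN : 1 ≤ N) {ν ν' : Fin k ⊕ Fin k → ℕ}
    (hν : ν ∈ tup k N) (hν' : ν' ∈ tup k N) {i : Fin k ⊕ Fin k} (h : ν i ≠ ν' i) :
    ‖EE T (th ν i - th ν' i)‖ ≤ 2 * N := by
  have h1 := th_gap hν hν' h
  have hN0 : (0 : ℝ) < N := by exact_mod_cast hN
  have h0 : 0 < |th ν i - th ν' i| := lt_of_lt_of_le (by positivity) h1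
  refine (EE_le' hT (abs_pos.1 h0)).trans ?_
  rw [div_le_iff₀ h0]
  rw [div_le_iff₀ hN0] at h1
  nlinarith

theorem ch_eq {k N : ℕ} {ν : Fin k ⊕ Fin k → ℕ} (hν : ν ∈ tup k N) (γ : Fin k ⊕ Fin k → ℝ) :
    ch ν γ = ∏ i, Complex.exp (I * ((th ν i * γ i : ℝ) : ℂ)) := by
  unfold tup at hν
  have h0 : ∀ i, (ν i : ℂ) ≠ 0 := by
    intro i
    have h1 := Finset.mem_Icc.1 (Fintype.mem_piFinset.1 hν i)
    exact_mod_cast (by omega : ν i ≠ 0)
  have hlog : ∀ i, Complex.log (ν i : ℂ) = ((Real.log (ν i) : ℝ) : ℂ) := by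
    intro i
    rw [Complex.ofReal_log (Nat.cast_nonneg _)]
    simp
  unfold ch
  rw [Fintype.prod_sum_type]
  congr 1
  · apply Finset.prod_congr rfl
    intro j _
    rw [Complex.cpow_def_of_ne_zero (h0 _), hlog]
    congr 1
    simp only [th, eps, Sum.elim_inl]
    push_cast
    ring
  · apply Finset.prod_congr rfl
    intro j _
    rw [Complex.cpow_def_of_ne_zero (h0 _), hlog]
    congr 1
    simp only [th, eps, Sum.elim_inr]
    push_cast
    ring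

theorem ch_mul {k N : ℕ} {ν ν' : Fin k ⊕ Fin k → ℕ} (hν : ν ∈ tup k N) (hν' : ν' ∈ tup k N)
    (γ : Fin k ⊕ Fin k → ℝ) :
    ch ν γ * (starRingEnd ℂ) (ch ν' γ) =
      ∏ i, Complex.exp (I * (((th ν i - th ν' i) * γ i : ℝ) : ℂ)) := by
  rw [ch_eq hν, ch_eq hν', map_prod, ← Finset.prod_mul_distrib]
  apply Finset.prod_congr rfl
  intro i _
  rw [← Complex.exp_conj, ← Complex.exp_add, map_mul, Complex.conj_I, Complex.conj_ofReal]
  congr 1
  push_cast
  ring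

theorem int_ch {k N : ℕ} {T : ℝ} {ν ν' : Fin k ⊕ Fin k → ℕ} (hν : ν ∈ tup k N)
    (hν' : ν' ∈ tup k N) :
    ∫ γ, ch ν γ * (starRingEnd ℂ) (ch ν' γ) ∂(mP (Fin k ⊕ Fin k) T) =
      ∏ i, EE T (th ν i - th ν' i) := by
  simp only [ch_mul hν hν']
  unfold mP EE
  exact integral_fintype_prod_eq_prod
    (fun i (u : ℝ) => Complex.exp (I * (((th ν i - th ν' i) * u : ℝ) : ℂ)))

instance fin_mP (ι : Type) [Fintype ι] (T : ℝ) : IsFiniteMeasure (mP ι T) := by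
  unfold mP
  infer_instance

theorem ch_cont {k N : ℕ} {ν : Fin k ⊕ Fin k → ℕ} (hν : ν ∈ tup k N) :
    Continuous (fun γ : Fin k ⊕ Fin k → ℝ => ch ν γ) := by
  simp only [ch_eq hν]
  fun_prop

theorem ch_norm {k N : ℕ} {ν : Fin k ⊕ Fin k → ℕ} (hν : ν ∈ tup k N)
    (γ : Fin k ⊕ Fin k → ℝ) : ‖ch ν γ‖ = 1 := by
  rw [ch_eq hν, norm_prod]
  exact Finset.prod_eq_one fun i _ => norm_exp_I _

theorem prod_bound {k N : ℕ} {T : ℝ} (hT : 0 < T) (hN : 1 ≤ N) {ν ν' : Fin k ⊕ Fin k → ℕ}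
    (hν : ν ∈ tup k N) (hν' : ν' ∈ tup k N) (hne : ν ≠ ν') :
    ‖∏ i, EE T (th ν i - th ν' i)‖ ≤ 2 * N * T ^ (2 * k - 1) := by
  classical
  obtain ⟨i0, hi0⟩ := Function.ne_iff.1 hne
  rw [norm_prod, ← Finset.mul_prod_erase Finset.univ _ (Finset.mem_univ i0)]
  apply mul_le_mul (EE_off hT hN hν hν' hi0) _ (Finset.prod_nonneg fun i _ => norm_nonneg _)
    (by positivity)
  calc ∏ i ∈ Finset.univ.erase i0, ‖EE T (th ν i - th ν' i)‖
      ≤ ∏ i ∈ Finset.univ.erase i0, T :=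
        Finset.prod_le_prod (fun i _ => norm_nonneg _) (fun i _ => EE_le hT _)
    _ = T ^ (2 * k - 1) := by
        rw [Finset.prod_const, Finset.card_erase_of_mem (Finset.mem_univ _), Finset.card_univ]
        simp only [Fintype.card_sum, Fintype.card_fin]
        congr 1
        omega

theorem prod_diag {k : ℕ} {T : ℝ} (hT : 0 < T) (ν : Fin k ⊕ Fin k → ℕ) :
    ∏ i, EE T (th ν i - th ν i) = (T : ℂ) ^ (2 * k) := by
  simp only [sub_self, EE_zero hT, Finset.prod_const, Finset.card_univ, Fintype.card_sum,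
    Fintype.card_fin]
  congr 1
  omega

theorem t_FL2 : Pool.Agent.TH612.GS.S_FL2 := by
  classical
  intro k N T c hN hT
  have hcont : Continuous (fun γ : Fin k ⊕ Fin k → ℝ => ∑ ν ∈ tup k N, c ν * ch ν γ) :=
    continuous_finset_sum _ fun ν hν => continuous_const.mul (ch_cont hν)
  have hint : Integrable (fun γ : Fin k ⊕ Fin k → ℝ => ‖∑ ν ∈ tup k N, c ν * ch ν γ‖ ^ 2)
      (mP (Fin k ⊕ Fin k) T) := by
    apply Integrable.of_bound (hcont.norm.pow 2).aestronglyMeasurable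
      (C := (∑ ν ∈ tup k N, ‖c ν‖) ^ 2)
    refine ae_of_all _ fun γ => ?_
    show ‖‖∑ ν ∈ tup k N, c ν * ch ν γ‖ ^ 2‖ ≤ (∑ ν ∈ tup k N, ‖c ν‖) ^ 2
    rw [norm_pow, norm_norm]
    apply pow_le_pow_left₀ (norm_nonneg _)
    refine (norm_sum_le _ _).trans (Finset.sum_le_sum fun ν hν => ?_)
    rw [norm_mul, ch_norm hν, mul_one]
  rw [← ofReal_integral_eq_lintegral_ofReal hint (ae_of_all _ fun γ => sq_nonneg _)]
  apply ENNReal.ofReal_le_ofReal
  -- the complex form of the integral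
  have h1 : ((∫ γ, ‖∑ ν ∈ tup k N, c ν * ch ν γ‖ ^ 2 ∂(mP (Fin k ⊕ Fin k) T) : ℝ) : ℂ) =
      ∑ ν ∈ tup k N, ∑ ν' ∈ tup k N, c ν * (starRingEnd ℂ) (c ν') *
        ∏ i, EE T (th ν i - th ν' i) := by
    rw [← integral_complex_ofReal]
    have h2 : ∀ γ : Fin k ⊕ Fin k → ℝ, ((‖∑ ν ∈ tup k N, c ν * ch ν γ‖ ^ 2 : ℝ) : ℂ) =
        ∑ ν ∈ tup k N, ∑ ν' ∈ tup k N, c ν * (starRingEnd ℂ) (c ν') *
          (ch ν γ * (starRingEnd ℂ) (ch ν' γ)) := by
      intro γ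
      have h3 := Complex.mul_conj (∑ ν ∈ tup k N, c ν * ch ν γ)
      rw [Complex.normSq_eq_norm_sq] at h3
      rw [← h3, map_sum, Finset.sum_mul_sum]
      apply Finset.sum_congr rfl
      intro ν _
      apply Finset.sum_congr rfl
      intro ν' _
      rw [map_mul]
      ring
    simp only [h2]
    have hi : ∀ ν ∈ tup k N, ∀ ν' ∈ tup k N, Integrable (fun γ : Fin k ⊕ Fin k → ℝ =>
        c ν * (starRingEnd ℂ) (c ν') * (ch ν γ * (starRingEnd ℂ) (ch ν' γ)))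
        (mP (Fin k ⊕ Fin k) T) := by
      intro ν hν ν' hν'
      apply Integrable.const_mul
      apply Integrable.of_bound ((ch_cont hν).mul
        (Complex.continuous_conj.comp (ch_cont hν'))).aestronglyMeasurable (C := 1)
      refine ae_of_all _ fun γ => ?_
      show ‖ch ν γ * (starRingEnd ℂ) (ch ν' γ)‖ ≤ 1
      rw [norm_mul, RCLike.norm_conj, ch_norm hν, ch_norm hν']
      norm_num
    rw [integral_finsetSum _ fun ν hν => integrable_finsetSum _ fun ν' hν' => hi ν hν ν' hν']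
    apply Finset.sum_congr rfl
    intro ν hν
    rw [integral_finsetSum _ fun ν' hν' => hi ν hν ν' hν']
    apply Finset.sum_congr rfl
    intro ν' hν'
    rw [integral_const_mul, int_ch hν hν']
  have h4 : ∫ γ, ‖∑ ν ∈ tup k N, c ν * ch ν γ‖ ^ 2 ∂(mP (Fin k ⊕ Fin k) T) ≤
      ‖∑ ν ∈ tup k N, ∑ ν' ∈ tup k N, c ν * (starRingEnd ℂ) (c ν') *
        ∏ i, EE T (th ν i - th ν' i)‖ := by
    rw [← h1, Complex.norm_real]
    exact le_abs_self _
  refine h4.trans ((norm_sum_le _ _).trans ?_)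
  have h5 : ∀ ν ∈ tup k N, ‖∑ ν' ∈ tup k N, c ν * (starRingEnd ℂ) (c ν') *
        ∏ i, EE T (th ν i - th ν' i)‖ ≤ T ^ (2 * k) * ‖c ν‖ ^ 2 +
        2 * N * T ^ (2 * k - 1) * (‖c ν‖ * ∑ ν' ∈ tup k N, ‖c ν'‖) := by
    intro ν hν
    refine (norm_sum_le _ _).trans ?_
    have h6 : ∀ ν' ∈ tup k N, ‖c ν * (starRingEnd ℂ) (c ν') * ∏ i, EE T (th ν i - th ν' i)‖ ≤
        (if ν' = ν then T ^ (2 * k) * ‖c ν‖ ^ 2 else 0) +
          2 * N * T ^ (2 * k - 1) * (‖c ν‖ * ‖c ν'‖) := by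
      intro ν' hν'
      rw [norm_mul, norm_mul, RCLike.norm_conj]
      by_cases h : ν' = ν
      · subst h
        rw [if_pos rfl, prod_diag hT, norm_pow, Complex.norm_real, Real.norm_eq_abs,
          abs_of_pos hT]
        have : 0 ≤ 2 * N * T ^ (2 * k - 1) * (‖c ν'‖ * ‖c ν'‖) := by positivity
        nlinarith
      · rw [if_neg h, zero_add]
        have h7 := prod_bound hT hN hν hν' (Ne.symm h)
        calc ‖c ν‖ * ‖c ν'‖ * ‖∏ i, EE T (th ν i - th ν' i)‖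
            ≤ ‖c ν‖ * ‖c ν'‖ * (2 * N * T ^ (2 * k - 1)) :=
              mul_le_mul_of_nonneg_left h7 (by positivity)
          _ = _ := by ring
    refine (Finset.sum_le_sum h6).trans (le_of_eq ?_)
    rw [Finset.sum_add_distrib, Finset.sum_ite_eq' (tup k N) ν, if_pos hν, ← Finset.mul_sum,
      ← Finset.mul_sum]
  refine (Finset.sum_le_sum h5).trans (le_of_eq ?_)
  rw [Finset.sum_add_distrib, ← Finset.mul_sum, ← Finset.mul_sum, ← Finset.sum_mul]
  ring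

end

end Pool.Agent.TH448.GS
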